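import Mathlib
import Pool.Agent.H379R3.Reg

/-! Box ideals `(x_j ^ s_j : j ∈ T)` in a regular local ring with parameters `x`. -/

set_option autoImplicit false

namespace Pool.Agent.TH45.FPR

open IsLocalRing

universe u v

section Box

variable {B : Type u} [CommRing B] {ι : Type v} [DecidableEq ι]

/-- The ideal generated by the powers `x j ^ s j` with `j ∈ T`. -/
def box (x : ι → B) (T : Finset ι) (s : ι → ℕ) : Ideal B :=
  Ideal.span ((fun j => x j ^ s j) '' (T : Set ι))

theorem box_congr (x : ι → B) {T : Finset ι} {s s' : ι → ℕ} (h : ∀ j ∈ T, s j = s' j) :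
    box x T s = box x T s' := by
  unfold box
  congr 1
  apply Set.image_congr
  intro j hj
  rw [h j hj]

theorem mem_box_insert (x : ι → B) {T : Finset ι} {j : ι} (s : ι → ℕ) {z : B} :
    z ∈ box x (insert j T) s ↔ ∃ a, ∃ w ∈ box x T s, z = a * x j ^ s j + w := by
  unfold box
  rw [Finset.coe_insert, Set.image_insert_eq, Ideal.mem_span_insert]

theorem pow_mem_box (x : ι → B) {T : Finset ι} {j : ι} (s : ι → ℕ) (hj : j ∈ T) :
    x j ^ s j ∈ box x T s :=
  Ideal.subset_span ⟨j, hj, rfl⟩

theorem pow_mem_box' (x : ι → B) {T : Finset ι} {j : ι} (s : ι → ℕ) (hj : j ∈ T) {r : ℕ}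
    (hr : s j ≤ r) : x j ^ r ∈ box x T s := by
  obtain ⟨k, rfl⟩ := Nat.exists_eq_add_of_le hr
  rw [pow_add]
  exact Ideal.mul_mem_right _ _ (pow_mem_box x s hj)

theorem box_le (x : ι → B) {T T' : Finset ι} {s s' : ι → ℕ} (hT : T ⊆ T')
    (hs : ∀ j ∈ T, s' j ≤ s j) : box x T s ≤ box x T' s' := by
  unfold box
  rw [Ideal.span_le]
  rintro _ ⟨j, hj, rfl⟩
  exact pow_mem_box' x s' (hT hj) (hs j hj)

theorem box_eq_top (x : ι → B) {T : Finset ι} {s : ι → ℕ} {j : ι} (hj : j ∈ T) (h : s j = 0) :
    box x T s = ⊤ := by
  rw [Ideal.eq_top_iff_one]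
  have := pow_mem_box x s hj
  rwa [h, pow_zero] at this

theorem box_one (x : ι → B) (T : Finset ι) : box x T (fun _ => 1) =
    Ideal.span (x '' (T : Set ι)) := by
  unfold box
  congr 1
  ext y
  simp

/-- The regularity property of a family of parameters. -/
def Reg (x : ι → B) : Prop :=
  ∀ (T : Finset ι) (s : ι → ℕ) (i : ι), i ∉ T → ∀ z, x i * z ∈ box x T s → z ∈ box x T s

theorem Reg.pow {x : ι → B} (h : Reg x) {T : Finset ι} {s : ι → ℕ} {i : ι} (hi : i ∉ T) (r : ℕ)
    {z : B} (hz : x i ^ r * z ∈ box x T s) : z ∈ box x T s := by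
  induction r with
  | zero => simpa using hz
  | succ r ih =>
    apply ih
    apply h T s i hi
    rwa [← mul_assoc, ← pow_succ']

theorem reg_of_prime (x : ι → B)
    (hx : ∀ (T : Finset ι) (i : ι), i ∉ T → ∀ z, x i * z ∈ Ideal.span (x '' (T : Set ι)) →
      z ∈ Ideal.span (x '' (T : Set ι))) : Reg x := by
  have key : ∀ (N : ℕ) (T : Finset ι) (s : ι → ℕ) (i : ι), i ∉ T → ∑ j ∈ T, s j ≤ N →
      ∀ z, x i * z ∈ box x T s → z ∈ box x T s := by
    intro N
    induction N with
    | zero =>
      intro T s i hi hs z hz
      by_cases hT : T = ∅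
      · subst hT
        have e : box x ∅ s = box x ∅ (fun _ => 1) := box_congr x (by simp)
        rw [e, box_one] at hz ⊢
        exact hx ∅ i hi z hz
      · obtain ⟨j, hj⟩ := Finset.nonempty_iff_ne_empty.2 hT
        have : s j = 0 := by
          have := Finset.single_le_sum (f := s) (fun _ _ => Nat.zero_le _) hj
          omega
        rw [box_eq_top x hj this]
        trivial
    | succ N ih =>
      intro T s i hi hs z hz
      by_cases h2 : ∃ j ∈ T, 2 ≤ s j
      · obtain ⟨j, hj, hsj⟩ := h2
        obtain ⟨r, hr⟩ : ∃ r, s j = r + 1 := ⟨s j - 1, by omega⟩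
        have hr1 : 1 ≤ r := by omega
        set T0 := T.erase j with hT0
        have hjT0 : j ∉ T0 := Finset.notMem_erase j T
        have hT : insert j T0 = T := Finset.insert_erase hj
        have hne : i ≠ j := fun e => hi (e ▸ hj)
        have hiT0 : i ∉ T0 := fun h => hi (Finset.mem_of_mem_erase h)
        have hsum : ∀ s' : ι → ℕ, ∑ k ∈ T, s' k = s' j + ∑ k ∈ T0, s' k := by
          intro s'
          rw [← hT, Finset.sum_insert hjT0]
        have hs0 := hsum s
        have upd : ∀ (m : ℕ), ∀ k ∈ T0, Function.update s j m k = s k := by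
          intro m k hk
          rw [Function.update_of_ne]
          rintro rfl
          exact hjT0 hk
        have bupd : ∀ m : ℕ, box x T0 (Function.update s j m) = box x T0 s :=
          fun m => box_congr x (upd m)
        have supd : ∀ m : ℕ, ∑ k ∈ T, Function.update s j m k = m + ∑ k ∈ T0, s k := by
          intro m
          rw [hsum, Function.update_self, Finset.sum_congr rfl (upd m)]
        -- first step
        have h1 : z ∈ box x T (Function.update s j r) := by
          apply ih T _ i hi (by rw [supd]; omega)
          refine box_le x (le_refl T) ?_ hz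
          intro k hk
          by_cases hkj : k = j
          · subst hkj
            rw [Function.update_self]
            omega
          · rw [Function.update_of_ne hkj]
        rw [← hT, mem_box_insert, Function.update_self, bupd] at h1
        obtain ⟨w, z', hz', rfl⟩ := h1
        rw [← hT, mem_box_insert] at hz ⊢
        obtain ⟨v, z'', hz'', hzz⟩ := hz
        have h3 : x j ^ r * (x i * w - v * x j) ∈ box x T0 s := by
          have : x j ^ r * (x i * w - v * x j) = z'' - x i * z' := by
            rw [hr] at hzz
            linear_combination hzz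
          rw [this]
          exact Ideal.sub_mem _ hz'' (Ideal.mul_mem_left _ _ hz')
        have h4 : x i * w - v * x j ∈ box x T0 s := by
          have hpow : ∀ (m : ℕ) (y : B), x j ^ m * y ∈ box x T0 s → y ∈ box x T0 s := by
            intro m
            induction m with
            | zero => intro y hy; simpa using hy
            | succ m ihm =>
              intro y hy
              apply ihm
              apply ih T0 s j hjT0 (by omega)
              rwa [← mul_assoc, ← pow_succ']
          exact hpow r _ h3
        have h5 : w ∈ box x T (Function.update s j 1) := by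
          apply ih T _ i hi (by rw [supd]; omega)
          rw [← hT, mem_box_insert, Function.update_self, bupd]
          exact ⟨v, _, h4, by ring⟩
        rw [← hT, mem_box_insert, Function.update_self, bupd] at h5
        obtain ⟨u, w', hw', rfl⟩ := h5
        refine ⟨u, w' * x j ^ r + z', Ideal.add_mem _ (Ideal.mul_mem_right _ _ hw') hz', ?_⟩
        rw [hr]
        ring
      · push Not at h2
        by_cases h0 : ∃ j ∈ T, s j = 0
        · obtain ⟨j, hj, hsj⟩ := h0
          rw [box_eq_top x hj hsj]
          trivial
        · push Not at h0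
          have e : box x T s = box x T (fun _ => 1) := box_congr x (by
            intro j hj
            have := h2 j hj
            have := h0 j hj
            omega)
          rw [e, box_one] at hz ⊢
          exact hx T i hi z hz
  intro T s i hi z hz
  exact key _ T s i hi le_rfl z hz

end Box

section RLR

variable {B : Type u} [CommRing B] [IsRegularLocalRing B] {ι : Type v} [DecidableEq ι] [Fintype ι]

/-- Partial quotients by parameters. -/
theorem quot_param (x : ι → B) (hx : Ideal.span (Set.range x) = maximalIdeal B)
    (hd : ringKrullDim B = Fintype.card ι) (T : Finset ι) :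
    IsDomain (B ⧸ Ideal.span (x '' (T : Set ι))) ∧
      ∀ i ∉ T, x i ∉ Ideal.span (x '' (T : Set ι)) := by
  classical
  set I := Ideal.span (x '' (T : Set ι)) with hI
  have hIm : I ≤ maximalIdeal B := by
    rw [hI, ← hx]
    exact Ideal.span_mono (Set.image_subset_range _ _)
  have hne : I ≠ ⊤ := by
    intro h
    rw [h] at hIm
    exact (maximalIdeal.isMaximal B).ne_top (top_le_iff.1 hIm)
  have : Nontrivial (B ⧸ I) := Ideal.Quotient.nontrivial_iff.2 hne
  have hloc : IsLocalRing (B ⧸ I) :=
    IsLocalRing.of_surjective' (Ideal.Quotient.mk _) Ideal.Quotient.mk_surjective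
  have hfin : ((fun i => x i) '' (T : Set ι)).Finite := T.finite_toSet.image _
  have hmax : maximalIdeal (B ⧸ I) =
      Ideal.span ((fun i => Ideal.Quotient.mk I (x i)) '' ((Tᶜ : Finset ι) : Set ι)) := by
    rw [← Pool.Agent.H379R3.map_mk_maximalIdeal, ← hx, Ideal.map_span]
    apply le_antisymm
    · rw [Ideal.span_le]
      rintro _ ⟨_, ⟨i, rfl⟩, rfl⟩
      by_cases h : i ∈ T
      · have : Ideal.Quotient.mk I (x i) = 0 :=
          Ideal.Quotient.eq_zero_iff_mem.2 (Ideal.subset_span ⟨i, h, rfl⟩)
        rw [this]
        exact Ideal.zero_mem _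
      · exact Ideal.subset_span ⟨i, by simpa using h, rfl⟩
    · apply Ideal.span_mono
      rintro _ ⟨i, _, rfl⟩
      exact ⟨x i, ⟨i, rfl⟩, rfl⟩
  have hcard : T.card + (Tᶜ).card = Fintype.card ι := by
    rw [Finset.card_compl]
    have := T.card_le_univ
    omega
  have hrank : (maximalIdeal (B ⧸ I)).spanFinrank ≤ (Tᶜ).card := by
    rw [hmax]
    refine (Submodule.spanFinrank_span_le_ncard_of_finite
      ((Tᶜ).finite_toSet.image _)).trans ?_
    refine (Set.ncard_image_le (Tᶜ).finite_toSet).trans ?_
    rw [Set.ncard_coe_finset]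
  have hdim : (((Tᶜ).card : ℕ) : WithBot ℕ∞) ≤ ringKrullDim (B ⧸ I) := by
    have h1 := ringKrullDim_le_ringKrullDim_quotient_add_card (R := B) (T.image x) (by
      intro y hy
      rw [SetLike.mem_coe, IsLocalRing.ringJacobson_eq_maximalIdeal]
      apply hIm
      rw [hI]
      apply Ideal.subset_span
      simpa using hy)
    rw [Finset.coe_image, ← hI, hd] at h1
    have h2 : ((T.image x).card : WithBot ℕ∞) ≤ (T.card : ℕ) := by
      exact_mod_cast Finset.card_image_le
    have h3 : ((Fintype.card ι : ℕ) : WithBot ℕ∞) ≤ ringKrullDim (B ⧸ I) + (T.card : ℕ) :=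
      h1.trans (by gcongr)
    rw [← hcard] at h3
    have h4 : ((T.card + (Tᶜ).card : ℕ) : WithBot ℕ∞) = ((Tᶜ).card : ℕ) + (T.card : ℕ) := by
      push_cast
      rw [add_comm]
    rw [h4] at h3
    have hfd : ringKrullDim (B ⧸ I) ≠ ⊤ := ringKrullDim_ne_top
    have hfb : ringKrullDim (B ⧸ I) ≠ ⊥ := ringKrullDim_ne_bot
    generalize ringKrullDim (B ⧸ I) = q at h3 hfd hfb
    cases q with
    | bot => exact absurd rfl hfb
    | coe q =>
      cases q with
      | top => exact absurd rfl hfd
      | coe q =>
        have h5 : (Tᶜ).card + T.card ≤ q + T.card := by exact_mod_cast h3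
        have h6 : (Tᶜ).card ≤ q := by omega
        exact_mod_cast h6
  have hreg : IsRegularLocalRing (B ⧸ I) := by
    apply IsRegularLocalRing.of_spanFinrank_maximalIdeal_le
    exact le_trans (by exact_mod_cast hrank) hdim
  refine ⟨Pool.Agent.H379R3.isDomain _, ?_⟩
  intro i hi hmem
  have h1 : maximalIdeal B = Ideal.span (x '' ((Finset.univ.erase i : Finset ι) : Set ι)) := by
    rw [← hx]
    apply le_antisymm
    · rw [Ideal.span_le]
      rintro _ ⟨j, rfl⟩
      by_cases hj : j = i
      · subst hj
        refine Ideal.span_mono ?_ hmem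
        apply Set.image_mono
        intro k hk
        have : k ≠ j := by
          rintro rfl
          exact hi hk
        simpa using this
      · exact Ideal.subset_span ⟨j, by simpa using hj, rfl⟩
    · exact Ideal.span_mono (Set.image_subset_range _ _)
  have h2 : (maximalIdeal B).spanFinrank ≤ Fintype.card ι - 1 := by
    rw [h1]
    refine (Submodule.spanFinrank_span_le_ncard_of_finite
      ((Finset.univ.erase i).finite_toSet.image _)).trans ?_
    refine (Set.ncard_image_le (Finset.univ.erase i).finite_toSet).trans ?_
    rw [Set.ncard_coe_finset, Finset.card_erase_of_mem (Finset.mem_univ _)]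
    rfl
  have h3 := (isRegularLocalRing_iff B).1 inferInstance
  rw [hd] at h3
  have h4 : (maximalIdeal B).spanFinrank = Fintype.card ι := by exact_mod_cast h3
  have h5 : 0 < Fintype.card ι := Fintype.card_pos_iff.2 ⟨i⟩
  omega

theorem reg_param (x : ι → B) (hx : Ideal.span (Set.range x) = maximalIdeal B)
    (hd : ringKrullDim B = Fintype.card ι) : Reg x := by
  apply reg_of_prime
  intro T i hi z hz
  obtain ⟨h1, h2⟩ := quot_param x hx hd T
  have hp : (Ideal.span (x '' (T : Set ι))).IsPrime := (Ideal.Quotient.isDomain_iff_prime _).1 h1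
  exact (hp.mem_or_mem hz).resolve_left (h2 i hi)

/-- The socle monomial is not in the box ideal. -/
theorem monomial_notMem (x : ι → B) (hx : Ideal.span (Set.range x) = maximalIdeal B)
    (hd : ringKrullDim B = Fintype.card ι) (t : ℕ) (u : B) (hu : IsUnit u) :
    u * ∏ i, x i ^ t ∉ box x Finset.univ (fun _ => t + 1) := by
  classical
  have hreg := reg_param x hx hd
  -- peel off
  have key : ∀ T : Finset ι, (u * ∏ i ∈ Tᶜ, x i ^ t) ∉
      box x Finset.univ (fun j => if j ∈ T then 1 else t + 1) := by
    intro T
    generalize hn : (Tᶜ).card = n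
    induction n generalizing T with
    | zero =>
      rw [Finset.card_eq_zero] at hn
      rw [hn, Finset.prod_empty, mul_one]
      have hT : T = Finset.univ := by simpa using hn
      intro h
      have h1 : box x Finset.univ (fun j => if j ∈ T then 1 else t + 1) ≤ maximalIdeal B := by
        rw [box_congr x (s' := fun _ => 1) (by simp [hT]), box_one, ← hx]
        exact Ideal.span_mono (Set.image_subset_range _ _)
      exact (IsLocalRing.mem_maximalIdeal _).1 (h1 h) hu
    | succ n ih =>
      intro hmem
      obtain ⟨i, hi⟩ : (Tᶜ).Nonempty := by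
        rw [← Finset.card_pos]
        omega
      have hiT : i ∉ T := by simpa using hi
      have hc : (insert i T)ᶜ = Tᶜ.erase i := by
        ext j
        simp only [Finset.mem_compl, Finset.mem_insert, Finset.mem_erase]
        tauto
      apply ih (insert i T) (by rw [hc, Finset.card_erase_of_mem hi]; omega)
      rw [hc]
      rw [← Finset.mul_prod_erase _ _ hi] at hmem
      have hins : insert i (Finset.univ.erase i) = (Finset.univ : Finset ι) :=
        Finset.insert_erase (Finset.mem_univ _)
      rw [← hins, mem_box_insert, if_neg hiT] at hmem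
      obtain ⟨a, w, hw, e⟩ := hmem
      have h1 : x i ^ t * (u * ∏ j ∈ Tᶜ.erase i, x j ^ t - a * x i) ∈
          box x (Finset.univ.erase i) (fun j => if j ∈ T then 1 else t + 1) := by
        have : x i ^ t * (u * ∏ j ∈ Tᶜ.erase i, x j ^ t - a * x i) = w := by
          linear_combination e
        rw [this]
        exact hw
      have h2 := hreg.pow (Finset.notMem_erase i _) t h1
      rw [← hins, mem_box_insert, if_pos (Finset.mem_insert_self i T), pow_one]
      refine ⟨a, _, ?_, (by ring : _ = a * x i + (u * ∏ j ∈ Tᶜ.erase i, x j ^ t - a * x i))⟩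
      rw [box_congr x (s' := fun j => if j ∈ T then 1 else t + 1)]
      · exact h2
      · intro j hj
        have hji : j ≠ i := Finset.ne_of_mem_erase hj
        by_cases hjT : j ∈ T
        · rw [if_pos hjT, if_pos (Finset.mem_insert_of_mem hjT)]
        · rw [if_neg hjT, if_neg]
          rw [Finset.mem_insert]
          tauto
  have := key ∅
  simpa using this

end RLR

end Pool.Agent.TH45.FPR
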