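import Pool.Agent.TH45.FPR.Near

/-! F-pure regularity of regular rings whose quotient domains have open regular loci. -/

set_option autoImplicit false
set_option linter.unusedSectionVars false

namespace Pool.Agent.TH45.FPR

open IsLocalRing

universe u v w

section

variable (p : ℕ) [hp : Fact p.Prime]

theorem pow_span_le_box (e : ℕ) {B : Type u} [CommRing B] [ExpChar B p] {ι : Type v}
    [DecidableEq ι] [Fintype ι] (z : ι → B) (I : Ideal B) (hz : Ideal.span (Set.range z) = I) :
    Ideal.span ((fun y => y ^ p ^ e) '' (I : Set B)) ≤ box z Finset.univ (fun _ => p ^ e) := by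
  have h1 : I.map (iterateFrobenius B p e) ≤ box z Finset.univ (fun _ => p ^ e) := by
    rw [← hz, Ideal.map_span, Ideal.span_le]
    rintro _ ⟨_, ⟨i, rfl⟩, rfl⟩
    rw [iterateFrobenius_def]
    exact pow_mem_box z _ (Finset.mem_univ i)
  rw [Ideal.span_le]
  rintro _ ⟨y, hy, rfl⟩
  exact h1 (Ideal.mem_map_of_mem (iterateFrobenius B p e) hy)

variable {R : Type u} [CommRing R] [ExpChar R p] [IsRegularRing R]

theorem bot_mem_regularLocus (D : Type u) [CommRing D] [IsDomain D] :
    (⟨⊥, Ideal.isPrime_bot⟩ : PrimeSpectrum D) ∈ regularLocus D := by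
  change IsRegularLocalRing (Localization.AtPrime (⊥ : Ideal D))
  let _ : Field (Localization.AtPrime (⊥ : Ideal D)) := IsField.toField <| by
    simp [IsLocalRing.isField_iff_maximalIdeal_eq, ← Localization.AtPrime.map_eq_maximalIdeal]
  infer_instance

theorem near (P : Ideal R) [hP : P.IsPrime] (hJ : IsOpen (regularLocus (R ⧸ P))) (c : R)
    (hc : algebraMap R (Localization.AtPrime P) c ≠ 0) :
    ∃ g ∉ P, ∃ t : ℕ, ∀ (Q : Ideal R) [Q.IsPrime], P ≤ Q → g ∉ Q →
      ∀ e : ℕ, t ≤ p ^ e → NotIn p e c Q := by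
  classical
  obtain ⟨ι, _, x, hxP, hspan, hd⟩ := exists_params_lift P
  obtain ⟨g1, hg1, hg1'⟩ := exists_common P (X := Ideal.span (Set.range x)) (by
    rw [Ideal.map_span, ← Set.range_comp]
    exact hspan)
  obtain ⟨a, r, v, hv, hrv⟩ := exists_leading_down P x hspan c hc
  obtain ⟨g3, hg3, hg3'⟩ : ∃ g3 : R, g3 ∉ P ∧ ∀ (Q : Ideal R) [Q.IsPrime], P ≤ Q → g3 ∉ Q →
      ∀ _ : (Q.map (Ideal.Quotient.mk P)).IsPrime,
        IsRegularLocalRing (Localization.AtPrime (Q.map (Ideal.Quotient.mk P))) := by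
    obtain ⟨_, ⟨f, rfl⟩, hf1, hf2⟩ :=
      PrimeSpectrum.isTopologicalBasis_basic_opens.exists_subset_of_mem_open
        (bot_mem_regularLocus (R ⧸ P)) hJ
    obtain ⟨g3, rfl⟩ := Ideal.Quotient.mk_surjective f
    refine ⟨g3, ?_, ?_⟩
    · intro h
      apply hf1
      have : Ideal.Quotient.mk P g3 = 0 := Ideal.Quotient.eq_zero_iff_mem.2 h
      rw [this]
      exact Ideal.zero_mem _
    · intro Q _ hPQ hgQ hQ'
      have hmem : (⟨Q.map (Ideal.Quotient.mk P), hQ'⟩ : PrimeSpectrum (R ⧸ P)) ∈
          regularLocus (R ⧸ P) := by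
        apply hf2
        show Ideal.Quotient.mk P g3 ∉ Q.map (Ideal.Quotient.mk P)
        intro h3
        apply hgQ
        rw [Ideal.mem_map_iff_of_surjective _ Ideal.Quotient.mk_surjective] at h3
        obtain ⟨w, hw, hwz⟩ := h3
        have h4 := hPQ (Ideal.Quotient.eq.1 hwz)
        have h5 : g3 = w - (w - g3) := by ring
        rw [h5]
        exact Ideal.sub_mem _ hw h4
      exact hmem
  refine ⟨g1 * v * g3, ?_, a + 1, ?_⟩
  · intro h
    rcases hP.mem_or_mem h with h | h
    · rcases hP.mem_or_mem h with h | h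
      · exact hg1 h
      · exact hv h
    · exact hg3 h
  · intro Q hQ hPQ hgQ e he
    have hQ1 : g1 ∉ Q := fun h => hgQ (Ideal.mul_mem_right _ _ (Ideal.mul_mem_right _ _ h))
    have hQ2 : v ∉ Q := fun h => hgQ (Ideal.mul_mem_right _ _ (Ideal.mul_mem_left _ _ h))
    have hQ3 : g3 ∉ Q := fun h => hgQ (Ideal.mul_mem_left _ _ h)
    obtain ⟨hQ', hloc⟩ := isLocalization_quot P Q hPQ
    have hreg0 := hg3' Q hPQ hQ3 hQ'
    have hreg : IsRegularLocalRing
        (Localization.AtPrime Q ⧸ P.map (algebraMap R (Localization.AtPrime Q))) :=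
      IsRegularLocalRing.of_ringEquiv (IsLocalization.algEquiv
        (Q.map (Ideal.Quotient.mk P)).primeCompl
        (Localization.AtPrime (Q.map (Ideal.Quotient.mk P)))
        (Localization.AtPrime Q ⧸ P.map (algebraMap R (Localization.AtPrime Q)))).toRingEquiv
    obtain ⟨κ, _, y, hspanB, hdB⟩ := exists_extend P Q hPQ x hxP hd g1 hQ1 hg1' hreg
    have hE : ExpChar (Localization.AtPrime Q) p := expChar_loc p Q
    intro hmem
    set z := Sum.elim (fun i => algebraMap R (Localization.AtPrime Q) (x i)) y with hz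
    have hu : IsUnit (algebraMap R (Localization.AtPrime Q) v) :=
      IsLocalization.map_units (M := Q.primeCompl) _ ⟨v, hQ2⟩
    apply monomial_notMem z hspanB hdB a _ hu
    have h1 : algebraMap R (Localization.AtPrime Q) c ∈ box z Finset.univ (fun _ => a + 1) :=
      box_le z (le_refl _) (fun _ _ => he) (pow_span_le_box p e z _ hspanB hmem)
    have h2 : algebraMap R (Localization.AtPrime Q) (r * c - v * ∏ i, x i ^ a) ∈
        box z Finset.univ (fun _ => a + 1) := by
      have h3 : (box x Finset.univ (fun _ => a + 1)).map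
          (algebraMap R (Localization.AtPrime Q)) ≤ box z Finset.univ (fun _ => a + 1) := by
        rw [box, Ideal.map_span, Ideal.span_le]
        rintro _ ⟨_, ⟨i, _, rfl⟩, rfl⟩
        rw [map_pow]
        exact pow_mem_box z (fun _ => a + 1) (Finset.mem_univ (Sum.inl i))
      exact h3 (Ideal.mem_map_of_mem _ hrv)
    have h3 : algebraMap R (Localization.AtPrime Q) v *
        ∏ i, (algebraMap R (Localization.AtPrime Q) (x i)) ^ a ∈
        box z Finset.univ (fun _ => a + 1) := by
      have h4 := Ideal.sub_mem _ (Ideal.mul_mem_left _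
        (algebraMap R (Localization.AtPrime Q) r) h1) h2
      convert h4 using 1
      simp only [map_sub, map_mul, map_prod, map_pow]
      ring
    rw [Fintype.prod_sum_type, ← mul_assoc]
    exact Ideal.mul_mem_right _ _ h3

theorem ne_zero_of_minimal (c : R) (hc : ∀ P ∈ minimalPrimes R, c ∉ P) (P : Ideal R)
    [hP : P.IsPrime] : algebraMap R (Localization.AtPrime P) c ≠ 0 := by
  intro h
  have hdom : IsDomain (Localization.AtPrime P) := Pool.Agent.H379R3.isDomain _
  set P0 := RingHom.ker (algebraMap R (Localization.AtPrime P)) with hP0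
  have hP0p : P0.IsPrime := RingHom.ker_isPrime _
  have hP0P : P0 ≤ P := by
    intro z hz
    by_contra hzP
    have h1 : IsUnit (algebraMap R (Localization.AtPrime P) z) :=
      IsLocalization.map_units (M := P.primeCompl) _ ⟨z, hzP⟩
    rw [RingHom.mem_ker.1 hz] at h1
    exact not_isUnit_zero h1
  apply hc P0
  · refine ⟨⟨hP0p, bot_le⟩, ?_⟩
    rintro P' ⟨hP', _⟩ hle z hz
    have h1 : algebraMap R (Localization.AtPrime P) z = 0 := hz
    rw [IsLocalization.map_eq_zero_iff P.primeCompl] at h1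
    obtain ⟨s, hs⟩ := h1
    have h2 : (s : R) * z ∈ P' := by rw [hs]; exact Ideal.zero_mem _
    exact (hP'.mem_or_mem h2).resolve_left (fun h3 => s.2 (hP0P (hle h3)))
  · exact h

theorem bound (hJ : ∀ (P : Ideal R), P.IsPrime → IsOpen (regularLocus (R ⧸ P))) (c : R)
    (hc : ∀ P ∈ minimalPrimes R, c ∉ P) (I : Ideal R) :
    ∃ t : ℕ, ∀ (Q : Ideal R) [Q.IsPrime], I ≤ Q → ∀ e : ℕ, t ≤ p ^ e → NotIn p e c Q := by
  induction I using WellFoundedGT.induction with
  | ind I ih =>
    by_cases hI : I.IsPrime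
    · obtain ⟨g, hg, t1, h1⟩ := near p I (hJ I hI) c (ne_zero_of_minimal c hc I)
      obtain ⟨t2, h2⟩ := ih (I ⊔ Ideal.span {g}) (by
        refine lt_of_le_of_ne le_sup_left ?_
        intro he
        apply hg
        rw [he]
        exact Ideal.mem_sup_right (Ideal.mem_span_singleton_self g))
      refine ⟨max t1 t2, ?_⟩
      intro Q _ hIQ e he
      by_cases hgQ : g ∈ Q
      · apply h2 Q _ e ((le_max_right _ _).trans he)
        exact sup_le hIQ ((Ideal.span_singleton_le_iff_mem _).2 hgQ)
      · exact h1 Q hIQ hgQ e ((le_max_left _ _).trans he)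
    · by_cases htop : I = ⊤
      · refine ⟨0, ?_⟩
        intro Q hQ hIQ
        rw [htop, top_le_iff] at hIQ
        exact absurd hIQ hQ.ne_top
      · obtain ⟨a, b, hab, ha, hb⟩ : ∃ a b, a * b ∈ I ∧ a ∉ I ∧ b ∉ I := by
          by_contra hcon
          push Not at hcon
          apply hI
          refine ⟨htop, ?_⟩
          intro a b hab
          by_contra h
          push Not at h
          exact h.2 (hcon a b hab h.1)
        have hlt : ∀ y, y ∉ I → I < I ⊔ Ideal.span {y} := by
          intro y hy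
          refine lt_of_le_of_ne le_sup_left ?_
          intro he
          apply hy
          rw [he]
          exact Ideal.mem_sup_right (Ideal.mem_span_singleton_self y)
        obtain ⟨t1, h1⟩ := ih _ (hlt a ha)
        obtain ⟨t2, h2⟩ := ih _ (hlt b hb)
        refine ⟨max t1 t2, ?_⟩
        intro Q hQ hIQ e he
        rcases hQ.mem_or_mem (hIQ hab) with h | h
        · exact h1 Q (sup_le hIQ ((Ideal.span_singleton_le_iff_mem _).2 h)) e
            ((le_max_left _ _).trans he)
        · exact h2 Q (sup_le hIQ ((Ideal.span_singleton_le_iff_mem _).2 h)) e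
            ((le_max_right _ _).trans he)

theorem final (hJ : ∀ (P : Ideal R), P.IsPrime → IsOpen (regularLocus (R ⧸ P))) (c : R)
    (hc : ∀ P ∈ minimalPrimes R, c ∉ P) : ∃ e : ℕ, 1 ≤ e ∧ IsPureMap (lam p e c) := by
  obtain ⟨t, ht⟩ := bound p hJ c hc ⊥
  refine ⟨t + 1, by omega, ?_⟩
  apply pure_global
  intro Q _
  apply ht Q bot_le
  have h1 : t + 1 < p ^ (t + 1) := Nat.lt_pow_self hp.out.one_lt
  omega

end

end Pool.Agent.TH45.FPR
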