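import Pool.Agent.TH45.FPR.Box

/-! Modules on which the parameters are regular are free modulo box ideals. -/

set_option autoImplicit false
set_option linter.unusedSectionVars false

namespace Pool.Agent.TH45.FPR

open IsLocalRing TensorProduct

universe u v w

section Module

variable {B : Type u} [CommRing B] {ι : Type v} [DecidableEq ι] [Fintype ι]
  {M : Type w} [AddCommGroup M] [Module B M]

/-- The regularity property for modules. -/
def RegM (x : ι → B) (M : Type w) [AddCommGroup M] [Module B M] : Prop :=
  ∀ (T : Finset ι) (s : ι → ℕ) (i : ι), i ∉ T →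
    ∀ m : M, x i • m ∈ box x T s • (⊤ : Submodule B M) → m ∈ box x T s • (⊤ : Submodule B M)

theorem mem_box_insert_smul (x : ι → B) {T : Finset ι} {j : ι} (s : ι → ℕ) {z : M} :
    z ∈ box x (insert j T) s • (⊤ : Submodule B M) ↔
      ∃ m, ∃ w ∈ box x T s • (⊤ : Submodule B M), z = x j ^ s j • m + w := by
  have h : box x (insert j T) s = Ideal.span {x j ^ s j} ⊔ box x T s := by
    unfold box
    rw [Finset.coe_insert, Set.image_insert_eq, Ideal.span_insert]
  rw [h, Submodule.sup_smul, Submodule.mem_sup]
  constructor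
  · rintro ⟨y, hy, w, hw, rfl⟩
    rw [Submodule.ideal_span_singleton_smul, Submodule.mem_smul_pointwise_iff_exists] at hy
    obtain ⟨m, _, rfl⟩ := hy
    exact ⟨m, w, hw, rfl⟩
  · rintro ⟨m, w, hw, rfl⟩
    refine ⟨x j ^ s j • m, ?_, w, hw, rfl⟩
    exact Submodule.smul_mem_smul (Ideal.mem_span_singleton_self _) trivial

theorem RegM.pow {x : ι → B} (h : RegM x M) {T : Finset ι} {s : ι → ℕ} {i : ι} (hi : i ∉ T)
    (r : ℕ) {z : M} (hz : x i ^ r • z ∈ box x T s • (⊤ : Submodule B M)) :
    z ∈ box x T s • (⊤ : Submodule B M) := by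
  induction r with
  | zero => simpa using hz
  | succ r ih =>
    apply ih
    apply h T s i hi
    rwa [smul_smul, ← pow_succ']

theorem indep {x : ι → B} (hreg : RegM x M) {J : Type*} (e : J → M)
    (h0 : ∀ (S : Finset J) (b : J → B),
      ∑ j ∈ S, b j • e j ∈ box x Finset.univ (fun _ => 1) • (⊤ : Submodule B M) →
        ∀ j ∈ S, b j ∈ box x Finset.univ (fun _ => 1)) :
    ∀ (t : ι → ℕ) (S : Finset J) (b : J → B),
      ∑ j ∈ S, b j • e j ∈ box x Finset.univ t • (⊤ : Submodule B M) →
        ∀ j ∈ S, b j ∈ box x Finset.univ t := by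
  have key : ∀ (N : ℕ) (t : ι → ℕ), ∑ i, t i ≤ N → ∀ (S : Finset J) (b : J → B),
      ∑ j ∈ S, b j • e j ∈ box x Finset.univ t • (⊤ : Submodule B M) →
        ∀ j ∈ S, b j ∈ box x Finset.univ t := by
    intro N
    induction N with
    | zero =>
      intro t ht S b hb
      have ht0 : ∀ i, t i = 0 := by
        intro i
        have := Finset.single_le_sum (f := t) (fun _ _ => Nat.zero_le _) (Finset.mem_univ i)
        omega
      by_cases hι : Nonempty ι
      · obtain ⟨i⟩ := hι
        intro j _
        rw [box_eq_top x (Finset.mem_univ i) (ht0 i)]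
        trivial
      · have e1 : box x Finset.univ t = box x Finset.univ (fun _ => 1) :=
          box_congr x (fun i _ => absurd ⟨i⟩ hι)
        rw [e1] at hb ⊢
        exact h0 S b hb
    | succ N ih =>
      intro t ht S b hb
      by_cases h2 : ∃ i, 2 ≤ t i
      · obtain ⟨i, hi⟩ := h2
        obtain ⟨r, hr⟩ : ∃ r, t i = r + 1 := ⟨t i - 1, by omega⟩
        have hr1 : 1 ≤ r := by omega
        set T0 := (Finset.univ : Finset ι).erase i with hT0
        have hiT0 : i ∉ T0 := Finset.notMem_erase i _
        have hins : insert i T0 = (Finset.univ : Finset ι) := Finset.insert_erase (Finset.mem_univ _)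
        have hsum : ∀ s' : ι → ℕ, ∑ k, s' k = s' i + ∑ k ∈ T0, s' k := by
          intro s'
          rw [← hins, Finset.sum_insert hiT0]
        have ht0 := hsum t
        have upd : ∀ (m : ℕ), ∀ k ∈ T0, Function.update t i m k = t k := by
          intro m k hk
          rw [Function.update_of_ne]
          rintro rfl
          exact hiT0 hk
        have bupd : ∀ m : ℕ, box x T0 (Function.update t i m) = box x T0 t :=
          fun m => box_congr x (upd m)
        have supd : ∀ m : ℕ, ∑ k, Function.update t i m k = m + ∑ k ∈ T0, t k := by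
          intro m
          rw [hsum, Function.update_self, Finset.sum_congr rfl (upd m)]
        have h1 : ∀ j ∈ S, b j ∈ box x Finset.univ (Function.update t i r) := by
          apply ih _ (by rw [supd]; omega) S b
          refine Submodule.smul_mono_left (box_le x (le_refl _) ?_) hb
          intro k _
          by_cases hki : k = i
          · subst hki
            rw [Function.update_self]
            omega
          · rw [Function.update_of_ne hki]
        have h1' : ∀ j, ∃ a : B, ∃ b' : B, j ∈ S → (b' ∈ box x T0 t ∧ b j = a * x i ^ r + b') := by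
          intro j
          by_cases hj : j ∈ S
          · have := h1 j hj
            rw [← hins, mem_box_insert, Function.update_self, bupd] at this
            obtain ⟨a, w, hw, e⟩ := this
            exact ⟨a, w, fun _ => ⟨hw, e⟩⟩
          · exact ⟨0, 0, fun h => absurd h hj⟩
        choose a b' hab using h1'
        rw [← hins, mem_box_insert_smul] at hb
        obtain ⟨m, w, hw, hsumeq⟩ := hb
        have h3 : ∑ j ∈ S, b' j • e j ∈ box x T0 t • (⊤ : Submodule B M) :=
          Submodule.sum_mem _ fun j hj => Submodule.smul_mem_smul (hab j hj).1 trivial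
        have h4 : ∑ j ∈ S, b j • e j = x i ^ r • (∑ j ∈ S, a j • e j) + ∑ j ∈ S, b' j • e j := by
          rw [Finset.smul_sum, ← Finset.sum_add_distrib]
          apply Finset.sum_congr rfl
          intro j hj
          rw [(hab j hj).2, add_smul, smul_smul, mul_comm]
        have h5 : x i ^ r • (∑ j ∈ S, a j • e j - x i • m) ∈ box x T0 t • (⊤ : Submodule B M) := by
          have : x i ^ r • (∑ j ∈ S, a j • e j - x i • m) = w - ∑ j ∈ S, b' j • e j := by
            rw [h4, hr, pow_succ, mul_smul] at hsumeq
            rw [smul_sub]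
            have := congrArg (fun y => y - ∑ j ∈ S, b' j • e j - x i ^ r • x i • m) hsumeq
            rw [add_sub_cancel_right] at this
            rw [this]
            abel
          rw [this]
          exact Submodule.sub_mem _ hw h3
        have h6 := hreg.pow hiT0 r h5
        have h7 : ∀ j ∈ S, a j ∈ box x Finset.univ (Function.update t i 1) := by
          apply ih _ (by rw [supd]; omega) S a
          rw [← hins, mem_box_insert_smul, Function.update_self, bupd, pow_one]
          exact ⟨m, _, h6, by abel⟩
        intro j hj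
        have h8 := h7 j hj
        rw [← hins, mem_box_insert, Function.update_self, bupd] at h8
        obtain ⟨a1, w1, hw1, e1⟩ := h8
        rw [← hins, mem_box_insert]
        refine ⟨a1, w1 * x i ^ r + b' j, Ideal.add_mem _ (Ideal.mul_mem_right _ _ hw1)
          (hab j hj).1, ?_⟩
        rw [(hab j hj).2, e1, hr]
        ring
      · push Not at h2
        by_cases h0' : ∃ i, t i = 0
        · obtain ⟨i, hi⟩ := h0'
          intro j _
          rw [box_eq_top x (Finset.mem_univ i) hi]
          trivial
        · push Not at h0'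
          have e1 : box x Finset.univ t = box x Finset.univ (fun _ => 1) := box_congr x (by
            intro j _
            have := h2 j
            have := h0' j
            omega)
          rw [e1] at hb ⊢
          exact h0 S b hb
  intro t
  exact key _ t le_rfl

theorem gen {I I' : Ideal B} (W : Submodule B M) (h1 : W ⊔ I • (⊤ : Submodule B M) = ⊤) (N : ℕ)
    (hN : I ^ N ≤ I') : W ⊔ I' • (⊤ : Submodule B M) = ⊤ := by
  have key : ∀ n : ℕ, W ⊔ I ^ n • (⊤ : Submodule B M) = ⊤ := by
    intro n
    induction n with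
    | zero => simp
    | succ n ih =>
      rw [eq_top_iff]
      calc (⊤ : Submodule B M) = W ⊔ I • (⊤ : Submodule B M) := h1.symm
        _ = W ⊔ I • (W ⊔ I ^ n • (⊤ : Submodule B M)) := by rw [ih]
        _ = W ⊔ (I • W ⊔ I ^ (n + 1) • (⊤ : Submodule B M)) := by
            rw [Submodule.smul_sup, ← Submodule.mul_smul, ← pow_succ']
        _ ≤ W ⊔ I ^ (n + 1) • (⊤ : Submodule B M) := by
            refine sup_le le_sup_left (sup_le (Submodule.smul_le_right.trans le_sup_left) le_sup_right)
  rw [eq_top_iff]
  exact (key N).symm.le.trans (sup_le_sup_left (Submodule.smul_mono_left hN) W)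

end Module

section Theta

variable {B : Type u} [CommRing B] [IsLocalRing B] [IsNoetherianRing B] {ι : Type v}
  [DecidableEq ι] [Fintype ι] {M : Type w} [AddCommGroup M] [Module B M]

/-- lifting a basis of `M / 𝔪 M` -/
theorem exists_family (v : M) (hv : v ∉ maximalIdeal B • (⊤ : Submodule B M)) :
    ∃ (J : Type w) (e : J → M) (j₀ : J), e j₀ = v ∧
      (∀ (S : Finset J) (b : J → B),
        ∑ j ∈ S, b j • e j ∈ maximalIdeal B • (⊤ : Submodule B M) →
          ∀ j ∈ S, b j ∈ maximalIdeal B) ∧
      Submodule.span B (Set.range e) ⊔ maximalIdeal B • (⊤ : Submodule B M) = ⊤ := by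
  classical
  let k := B ⧸ maximalIdeal B
  let _ : Field k := Ideal.Quotient.field (maximalIdeal B)
  let V := M ⧸ maximalIdeal B • (⊤ : Submodule B M)
  let _ : Module k V := inferInstance
  let π : M →ₗ[B] V := (maximalIdeal B • (⊤ : Submodule B M)).mkQ
  have hπ : π v ≠ 0 := by
    intro h
    exact hv ((Submodule.Quotient.mk_eq_zero _).1 h)
  have hli : LinearIndepOn k id ({π v} : Set V) := by
    exact .singleton hπ
  let b := Module.Basis.extend hli
  have hmem : π v ∈ hli.extend (Set.subset_univ _) := hli.subset_extend _ rfl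
  let j₀ : hli.extend (Set.subset_univ _) := ⟨π v, hmem⟩
  have hb0 : b j₀ = π v := Module.Basis.extend_apply_self hli j₀
  have hsurj : Function.Surjective π := Submodule.mkQ_surjective _
  choose e0 he0 using fun j => hsurj (b j)
  let e : hli.extend (Set.subset_univ _) → M := Function.update e0 j₀ v
  have he : ∀ j, π (e j) = b j := by
    intro j
    by_cases hj : j = j₀
    · subst hj
      simp only [e, Function.update_self]
      exact hb0.symm
    · simp only [e, Function.update_of_ne hj]
      exact he0 j
  have hsm : ∀ (r : B) (y : V), r • y = (Ideal.Quotient.mk (maximalIdeal B) r : k) • y := by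
    intro r y
    rfl
  refine ⟨_, e, j₀, by simp [e], ?_, ?_⟩
  · intro S c hc j hj
    have h1 : π (∑ j ∈ S, c j • e j) = 0 := (Submodule.Quotient.mk_eq_zero _).2 hc
    rw [map_sum] at h1
    have h2 : ∑ j ∈ S, (Ideal.Quotient.mk (maximalIdeal B) (c j) : k) • b j = 0 := by
      rw [← h1]
      apply Finset.sum_congr rfl
      intro j _
      rw [map_smul, he, hsm]
    have h3 := linearIndependent_iff'.1 b.linearIndependent S _ h2 j hj
    exact Ideal.Quotient.eq_zero_iff_mem.1 h3
  · rw [eq_top_iff]
    intro m _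
    have h1 : ∀ y : V, ∃ m' ∈ Submodule.span B (Set.range e), π m' = y := by
      intro y
      have hy : y ∈ Submodule.span k (Set.range b) := b.mem_span y
      induction hy using Submodule.span_induction with
      | mem y hy =>
        obtain ⟨j, rfl⟩ := hy
        exact ⟨e j, Submodule.subset_span ⟨j, rfl⟩, he j⟩
      | zero => exact ⟨0, Submodule.zero_mem _, map_zero _⟩
      | add y z _ _ hy hz =>
        obtain ⟨m1, h1, rfl⟩ := hy
        obtain ⟨m2, h2, rfl⟩ := hz
        exact ⟨m1 + m2, Submodule.add_mem _ h1 h2, map_add _ _ _⟩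
      | smul a y _ hy =>
        obtain ⟨m1, h1, rfl⟩ := hy
        obtain ⟨r, rfl⟩ := Ideal.Quotient.mk_surjective a
        exact ⟨r • m1, Submodule.smul_mem _ _ h1, by rw [map_smul, hsm]⟩
    obtain ⟨m', hm', hm⟩ := h1 (π m)
    have h2 : m - m' ∈ maximalIdeal B • (⊤ : Submodule B M) := by
      rw [← Submodule.Quotient.mk_eq_zero]
      have : π (m - m') = 0 := by rw [map_sub, hm, sub_self]
      exact this
    have h3 : m = m' + (m - m') := by abel
    rw [h3]
    exact Submodule.add_mem_sup hm' h2

theorem exists_theta {x : ι → B} (hx : Ideal.span (Set.range x) = maximalIdeal B)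
    (hreg : RegM x M) (v : M) (hv : v ∉ maximalIdeal B • (⊤ : Submodule B M)) (t : ℕ) :
    ∃ θ : M →ₗ[B] B ⧸ box x Finset.univ (fun _ => t), θ v = 1 := by
  classical
  obtain ⟨J, e, j₀, he, h0, h1⟩ := exists_family v hv
  have hb1 : box x Finset.univ (fun _ => 1) = maximalIdeal B := by
    rw [box_one, ← hx]
    simp
  rw [← hb1] at h0
  have hind := indep hreg e h0 (fun _ => t)
  set I := box x Finset.univ (fun _ => t) with hI
  have hrad : maximalIdeal B ≤ I.radical := by
    rw [← hx, Ideal.span_le]
    rintro _ ⟨i, rfl⟩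
    exact ⟨t, pow_mem_box x (fun _ => t) (Finset.mem_univ i)⟩
  obtain ⟨N, hN⟩ := Ideal.exists_pow_le_of_le_radical_of_fg hrad
    (maximalIdeal B).fg_of_isNoetherianRing
  have hgen := gen _ h1 N hN
  -- the quotient map from the free module
  let ψ : (J →₀ B) →ₗ[B] (M ⧸ I • (⊤ : Submodule B M)) :=
    (I • (⊤ : Submodule B M)).mkQ.comp (Finsupp.linearCombination B e)
  have hψ : Function.Surjective ψ := by
    intro y
    obtain ⟨m, rfl⟩ := Submodule.mkQ_surjective _ y
    have hm : m ∈ Submodule.span B (Set.range e) ⊔ I • (⊤ : Submodule B M) := by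
      rw [hgen]; trivial
    obtain ⟨a, ha, c, hc, rfl⟩ := Submodule.mem_sup.1 hm
    rw [Finsupp.mem_span_range_iff_exists_finsupp] at ha
    obtain ⟨f, rfl⟩ := ha
    refine ⟨f, ?_⟩
    show (I • (⊤ : Submodule B M)).mkQ (Finsupp.linearCombination B e f) = _
    rw [map_add, (Submodule.Quotient.mk_eq_zero _).2 hc |> (show
      (I • (⊤ : Submodule B M)).mkQ c = 0 from ·), add_zero]
    rfl
  let f0 : (J →₀ B) →ₗ[B] B ⧸ I := (Submodule.mkQ I).comp (Finsupp.lapply j₀)
  have hker : LinearMap.ker ψ ≤ LinearMap.ker f0 := by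
    intro b hb
    rw [LinearMap.mem_ker] at hb ⊢
    have h2 : ∑ j ∈ b.support, b j • e j ∈ I • (⊤ : Submodule B M) := by
      rw [← Submodule.Quotient.mk_eq_zero]
      exact hb
    have h3 := hind b.support b h2
    show Submodule.mkQ I (b j₀) = 0
    rw [Submodule.mkQ_apply, Submodule.Quotient.mk_eq_zero]
    by_cases hj : j₀ ∈ b.support
    · exact h3 j₀ hj
    · rw [Finsupp.notMem_support_iff.1 hj]
      exact Ideal.zero_mem _
  let θ : M →ₗ[B] B ⧸ I :=
    (((LinearMap.ker ψ).liftQ f0 hker).comp
      ((ψ.quotKerEquivOfSurjective hψ).symm : _ →ₗ[B] _)).comp (I • (⊤ : Submodule B M)).mkQ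
  refine ⟨θ, ?_⟩
  have h4 : (I • (⊤ : Submodule B M)).mkQ v = ψ (Finsupp.single j₀ 1) := by
    show _ = (I • (⊤ : Submodule B M)).mkQ (Finsupp.linearCombination B e (Finsupp.single j₀ 1))
    rw [Finsupp.linearCombination_single, one_smul, he]
  show (LinearMap.ker ψ).liftQ f0 hker ((ψ.quotKerEquivOfSurjective hψ).symm
    ((I • (⊤ : Submodule B M)).mkQ v)) = 1
  have h5 : (ψ.quotKerEquivOfSurjective hψ).symm (ψ (Finsupp.single j₀ 1)) =
      (LinearMap.ker ψ).mkQ (Finsupp.single j₀ 1) := by
    rw [LinearEquiv.symm_apply_eq]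
    rfl
  rw [h4, h5]
  show f0 (Finsupp.single j₀ 1) = 1
  show Submodule.mkQ I ((Finsupp.single j₀ (1 : B)) j₀) = 1
  rw [Finsupp.single_eq_same]
  rfl

/-- Local purity. -/
theorem pure_local {x : ι → B} (hx : Ideal.span (Set.range x) = maximalIdeal B)
    (hreg : RegM x M) (v : M) (hv : v ∉ maximalIdeal B • (⊤ : Submodule B M))
    {P : Type*} [AddCommGroup P] [Module B P] (n : P) (hn : n ⊗ₜ[B] v = (0 : P ⊗[B] M)) :
    n = 0 := by
  classical
  -- reduction to finitely generated modules
  have hfg : (Submodule.span B {n}).FG := Submodule.fg_span_singleton n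
  have hnn : n ∈ Submodule.span B {n} := Submodule.mem_span_singleton_self n
  obtain ⟨P', hP', hle, heq⟩ := hfg.exists_rTensor_fg_inclusion_eq (M := M)
    (x := (⟨n, hnn⟩ : Submodule.span B {n}) ⊗ₜ[B] v) (y := 0) (by
      rw [map_zero, LinearMap.rTensor_tmul]
      exact hn)
  rw [map_zero, LinearMap.rTensor_tmul] at heq
  have : Module.Finite B P' := Module.Finite.iff_fg.2 hP'
  set n' : P' := Submodule.inclusion hle ⟨n, hnn⟩ with hn'
  by_contra hne
  have hn0 : n' ≠ 0 := by
    intro h
    apply hne
    have := congrArg Subtype.val h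
    exact this
  have hinf := Ideal.iInf_pow_smul_eq_bot_of_isLocalRing (M := P') (maximalIdeal B)
    (maximalIdeal.isMaximal B).ne_top
  obtain ⟨t, ht⟩ : ∃ t : ℕ, n' ∉ maximalIdeal B ^ t • (⊤ : Submodule B P') := by
    by_contra hcon
    push Not at hcon
    apply hn0
    rw [← Submodule.mem_bot B, ← hinf, Submodule.mem_iInf]
    exact hcon
  set I := box x Finset.univ (fun _ => t) with hI
  obtain ⟨θ, hθ⟩ : ∃ θ : M →ₗ[B] B ⧸ I, θ v = 1 := exists_theta hx hreg v hv t
  have hIm : I ≤ maximalIdeal B ^ t := by
    rw [hI, box, Ideal.span_le]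
    rintro _ ⟨j, _, rfl⟩
    apply Ideal.pow_mem_pow
    rw [← hx]
    exact Ideal.subset_span ⟨j, rfl⟩
  apply ht
  apply Submodule.smul_mono_left hIm
  -- the map P' ⊗ M → P' ⊗ B/I → P' / I P'
  have h1 := congrArg (LinearMap.lTensor P' θ) heq
  rw [map_zero, LinearMap.lTensor_tmul, hθ] at h1
  have h2 := congrArg (TensorProduct.tensorQuotEquivQuotSMul P' I) h1
  rw [map_zero, show (1 : B ⧸ I) = Ideal.Quotient.mk I 1 from rfl,
    TensorProduct.tensorQuotEquivQuotSMul_tmul_mk, one_smul] at h2
  exact (Submodule.Quotient.mk_eq_zero _).1 h2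

end Theta

end Pool.Agent.TH45.FPR
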