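import Pool.Agent.TH45.FPR.Free

/-! The Frobenius push-forward and purity of `1 ↦ c`. -/

set_option autoImplicit false
set_option linter.unusedSectionVars false

namespace Pool.Agent.TH45.FPR

open IsLocalRing TensorProduct

universe u v w

/-- `F^e_* R`: the ring `R` viewed as an `R`-module through `r ↦ r ^ (p ^ e)`. -/
def Fe (_p _e : ℕ) (R : Type u) : Type u := R

instance (p e : ℕ) (R : Type u) [CommRing R] : AddCommGroup (Fe p e R) :=
  inferInstanceAs (AddCommGroup R)

noncomputable instance (p e : ℕ) (R : Type u) [CommRing R] [ExpChar R p] : Module R (Fe p e R) :=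
  Module.compHom R (iterateFrobenius R p e)

/-- an element of `R` as an element of `F^e_* R` -/
def toFe (p e : ℕ) {R : Type u} (r : R) : Fe p e R := r

/-- an element of `F^e_* R` as an element of `R` -/
def ofFe (p e : ℕ) {R : Type u} (r : Fe p e R) : R := r

section

variable (p e : ℕ) {R : Type u} [CommRing R] [ExpChar R p]

theorem toFe_add (a b : R) : toFe p e (a + b) = toFe p e a + toFe p e b := rfl

theorem smul_toFe (r s : R) : r • toFe p e s = toFe p e (r ^ p ^ e * s) := rfl

theorem ofFe_smul (r : R) (s : Fe p e R) : ofFe p e (r • s) = r ^ p ^ e * ofFe p e s := rfl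

theorem mem_box_smul_top {ι : Type v} [DecidableEq ι] [Fintype ι] (x : ι → R) (T : Finset ι) (s : ι → ℕ)
    (z : Fe p e R) : z ∈ box x T s • (⊤ : Submodule R (Fe p e R)) ↔
      ofFe p e z ∈ box x T (fun j => s j * p ^ e) := by
  induction T using Finset.induction_on generalizing z with
  | empty =>
    have h1 : ∀ s' : ι → ℕ, box x ∅ s' = ⊥ := by
      intro s'
      unfold box
      simp
    rw [h1, h1, Submodule.bot_smul, Submodule.mem_bot, Submodule.mem_bot]
    rfl
  | insert j T _ ih =>
    rw [mem_box_insert_smul, mem_box_insert]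
    constructor
    · rintro ⟨m, w, hw, rfl⟩
      refine ⟨ofFe p e m, ofFe p e w, (ih w).1 hw, ?_⟩
      show (x j ^ s j) ^ p ^ e * ofFe p e m + ofFe p e w = _
      rw [← pow_mul, mul_comm]
    · rintro ⟨a, w, hw, hz⟩
      refine ⟨toFe p e a, toFe p e w, (ih _).2 hw, ?_⟩
      show ofFe p e z = (x j ^ s j) ^ p ^ e * a + w
      rw [hz, ← pow_mul, mul_comm]

theorem regM_Fe {ι : Type v} [DecidableEq ι] [Fintype ι] {x : ι → R} (h : Reg x) : RegM x (Fe p e R) := by
  intro T s i hi m hm
  rw [mem_box_smul_top] at hm ⊢
  rw [ofFe_smul] at hm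
  exact h.pow hi _ hm

end

section LocalPure

theorem exists_params (B : Type u) [CommRing B] [IsRegularLocalRing B] :
    ∃ (ι : Type u) (_ : Fintype ι) (x : ι → B), Ideal.span (Set.range x) = maximalIdeal B ∧
      ringKrullDim B = Fintype.card ι := by
  have hfg : (maximalIdeal B).FG := (maximalIdeal B).fg_of_isNoetherianRing
  have hfin : (maximalIdeal B).generators.Finite := Submodule.FG.finite_generators hfg
  have hft : Fintype (maximalIdeal B).generators := hfin.fintype
  refine ⟨(maximalIdeal B).generators, hft, Subtype.val, ?_, ?_⟩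
  · rw [Subtype.range_coe]
    exact Submodule.span_generators _
  · rw [← (isRegularLocalRing_iff B).1 inferInstance, ← Submodule.FG.generators_ncard hfg,
      Set.ncard_eq_toFinset_card', Set.toFinset_card]

theorem pure_regular (p e : ℕ) {B : Type u} [CommRing B] [IsRegularLocalRing B] [ExpChar B p]
    (v : Fe p e B) (hv : v ∉ maximalIdeal B • (⊤ : Submodule B (Fe p e B)))
    {P : Type*} [AddCommGroup P] [Module B P] (n : P)
    (hn : n ⊗ₜ[B] v = (0 : P ⊗[B] Fe p e B)) : n = 0 := by
  classical
  obtain ⟨ι, _, x, hx, hd⟩ := exists_params B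
  exact pure_local hx (regM_Fe p e (reg_param x hx hd)) v hv n hn

end LocalPure

/-- A map of modules is pure if it stays injective after tensoring with every module. -/
def IsPureMap {R : Type u} [CommRing R] {M N : Type u} [AddCommGroup M] [Module R M]
    [AddCommGroup N] [Module R N] (f : M →ₗ[R] N) : Prop :=
  ∀ (P : Type u) [AddCommGroup P] [Module R P], Function.Injective (f.rTensor P)

/-- The map `R → F^e_* R`, `1 ↦ c`, that is, `r ↦ c r ^ (p ^ e)`. -/
noncomputable def lam (p e : ℕ) {R : Type u} [CommRing R] [ExpChar R p] (c : R) :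
    R →ₗ[R] Fe p e R :=
  LinearMap.toSpanSingleton R (Fe p e R) (toFe p e c)

section Global

variable (p e : ℕ) {R : Type u} [CommRing R] [ExpChar R p] [hp : Fact p.Prime]

theorem charP_loc (Q : Ideal R) [Q.IsPrime] : CharP (Localization.AtPrime Q) p := by
  rw [CharP.charP_iff_prime_eq_zero hp.out]
  have h : CharP R p := by
    have := ‹ExpChar R p›
    cases this with
    | zero => exact absurd rfl hp.out.one_lt.ne
    | prime h => assumption
  have h0 : (p : R) = 0 := CharP.cast_eq_zero R p
  have := congrArg (algebraMap R (Localization.AtPrime Q)) h0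
  rwa [map_natCast, map_zero] at this

theorem expChar_loc (Q : Ideal R) [Q.IsPrime] : ExpChar (Localization.AtPrime Q) p :=
  have := charP_loc p Q
  ExpChar.prime hp.out

/-- The condition for purity at a prime. -/
def NotIn (c : R) (Q : Ideal R) [Q.IsPrime] : Prop :=
  algebraMap R (Localization.AtPrime Q) c ∉
    Ideal.span ((fun y => y ^ p ^ e) '' (maximalIdeal (Localization.AtPrime Q) :
      Set (Localization.AtPrime Q)))

theorem smul_top_le (B : Type u) [CommRing B] [ExpChar B p] (I : Ideal B) (z : Fe p e B)
    (hz : z ∈ I • (⊤ : Submodule B (Fe p e B))) :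
    ofFe p e z ∈ Ideal.span ((fun y => y ^ p ^ e) '' (I : Set B)) := by
  induction hz using Submodule.smul_induction_on' with
  | smul r hr m _ =>
    rw [ofFe_smul]
    exact Ideal.mul_mem_right _ _ (Ideal.subset_span ⟨r, hr, rfl⟩)
  | add a _ b _ ha hb => exact Ideal.add_mem _ ha hb

theorem pure_global [IsRegularRing R] (c : R)
    (h : ∀ (Q : Ideal R) [Q.IsMaximal], NotIn p e c Q) : IsPureMap (lam p e c) := by
  intro P _ _
  rw [injective_iff_map_eq_zero]
  intro z hz
  obtain ⟨n, rfl⟩ : ∃ n : P, z = (1 : R) ⊗ₜ[R] n := by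
    refine ⟨TensorProduct.lid R P z, ?_⟩
    apply (TensorProduct.lid R P).injective
    rw [TensorProduct.lid_tmul, one_smul]
  rw [LinearMap.rTensor_tmul] at hz
  have h1 : lam p e c (1 : R) = toFe p e c := by
    rw [lam, LinearMap.toSpanSingleton_apply, one_smul]
  rw [h1] at hz
  have hn : n = 0 := by
    apply Module.eq_zero_of_localization_maximal (R := R) (M := P)
      (fun Q _ => LocalizedModule Q.primeCompl P) (fun Q _ => LocalizedModule.mkLinearMap _ _)
    intro Q hQ
    let B := Localization.AtPrime Q
    have : ExpChar B p := expChar_loc p Q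
    let f : P →+ Fe p e R →+ (LocalizedModule Q.primeCompl P ⊗[B] Fe p e B) :=
      AddMonoidHom.mk' (fun m => AddMonoidHom.mk' (fun s =>
        (LocalizedModule.mkLinearMap Q.primeCompl P m) ⊗ₜ[B]
          toFe p e (algebraMap R B (ofFe p e s))) (by
          intro a b
          rw [← TensorProduct.tmul_add, ← toFe_add, ← map_add]
          rfl)) (by
          intro a b
          ext s
          simp only [AddMonoidHom.mk'_apply, AddMonoidHom.add_apply]
          rw [map_add, TensorProduct.add_tmul])
    have hf : ∀ (r : R) (m : P) (s : Fe p e R), f (r • m) s = f m (r • s) := by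
      intro r m s
      show (LocalizedModule.mkLinearMap Q.primeCompl P (r • m)) ⊗ₜ[B]
          toFe p e (algebraMap R B (ofFe p e s)) =
        (LocalizedModule.mkLinearMap Q.primeCompl P m) ⊗ₜ[B]
          toFe p e (algebraMap R B (ofFe p e (r • s)))
      rw [map_smul, ofFe_smul, map_mul, map_pow, ← smul_toFe, ← TensorProduct.smul_tmul,
        algebraMap_smul]
    have h2 := congrArg (TensorProduct.liftAddHom f hf) (show n ⊗ₜ[R] toFe p e c = 0 by
      have := congrArg (TensorProduct.comm R (Fe p e R) P) hz
      rwa [TensorProduct.comm_tmul, map_zero] at this)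
    rw [TensorProduct.liftAddHom_tmul, map_zero] at h2
    refine pure_regular p e (B := B) (toFe p e (algebraMap R B c)) ?_ _ h2
    intro hmem
    exact h Q (smul_top_le p e B _ _ hmem)
  rw [hn, TensorProduct.tmul_zero]

end Global

end Pool.Agent.TH45.FPR
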