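import Pool.Agent.TH45.FPR.Frob

/-! Uniform bounds near a prime ideal. -/

set_option autoImplicit false
set_option linter.unusedSectionVars false

namespace Pool.Agent.TH45.FPR

open IsLocalRing

universe u v w

/-- The primes at which the ring is regular. -/
def regularLocus (S : Type u) [CommRing S] : Set (PrimeSpectrum S) :=
  {q | IsRegularLocalRing (Localization.AtPrime q.asIdeal)}

section Param

variable {R : Type u} [CommRing R]

/-- parameters of `R_P` coming from `P` -/
theorem exists_params_lift (P : Ideal R) [P.IsPrime]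
    [IsRegularLocalRing (Localization.AtPrime P)] :
    ∃ (ι : Type u) (_ : Fintype ι) (x : ι → R), (∀ i, x i ∈ P) ∧
      Ideal.span (Set.range fun i => algebraMap R (Localization.AtPrime P) (x i)) =
        maximalIdeal (Localization.AtPrime P) ∧
      ringKrullDim (Localization.AtPrime P) = Fintype.card ι := by
  obtain ⟨ι, hι, y, hy, hd⟩ := exists_params (Localization.AtPrime P)
  choose r s hrs using fun i => IsLocalization.exists_mk'_eq P.primeCompl (y i)
  have h1 : ∀ i, algebraMap R (Localization.AtPrime P) (r i) =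
      y i * algebraMap R (Localization.AtPrime P) (s i) := by
    intro i
    rw [← hrs i, IsLocalization.mk'_spec]
  have h2 : ∀ i, IsUnit (algebraMap R (Localization.AtPrime P) (s i)) := fun i =>
    IsLocalization.map_units _ (s i)
  refine ⟨ι, hι, r, ?_, ?_, hd⟩
  · intro i
    have h3 : algebraMap R (Localization.AtPrime P) (r i) ∈
        maximalIdeal (Localization.AtPrime P) := by
      rw [h1]
      apply Ideal.mul_mem_right
      rw [← hy]
      exact Ideal.subset_span ⟨i, rfl⟩
    rwa [IsLocalization.AtPrime.to_map_mem_maximal_iff _ P] at h3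
  · rw [← hy]
    apply le_antisymm
    · rw [Ideal.span_le]
      rintro _ ⟨i, rfl⟩
      show algebraMap R (Localization.AtPrime P) (r i) ∈ _
      rw [h1]
      exact Ideal.mul_mem_right _ _ (Ideal.subset_span ⟨i, rfl⟩)
    · rw [Ideal.span_le]
      rintro _ ⟨i, rfl⟩
      obtain ⟨u, hu⟩ := h2 i
      have h4 : y i = algebraMap R (Localization.AtPrime P) (r i) * ((u⁻¹ : _ˣ) : _) := by
        rw [h1, ← hu, mul_assoc, Units.mul_inv, mul_one]
      rw [h4]
      exact Ideal.mul_mem_right _ _ (Ideal.subset_span ⟨i, rfl⟩)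

theorem exists_common (P : Ideal R) [hP : P.IsPrime] [IsNoetherianRing R] {X : Ideal R}
    (hX : X.map (algebraMap R (Localization.AtPrime P)) = maximalIdeal (Localization.AtPrime P)) :
    ∃ g ∉ P, ∀ w ∈ P, g * w ∈ X := by
  classical
  obtain ⟨G, hG⟩ := (IsNoetherian.noetherian P : P.FG)
  have h1 : ∀ w : R, ∃ s, s ∉ P ∧ (w ∈ P → s * w ∈ X) := by
    intro w
    by_cases hw : w ∈ P
    · have h2 : algebraMap R (Localization.AtPrime P) w ∈
          X.map (algebraMap R (Localization.AtPrime P)) := by
        rw [hX, IsLocalization.AtPrime.to_map_mem_maximal_iff _ P]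
        exact hw
      rw [IsLocalization.algebraMap_mem_map_algebraMap_iff P.primeCompl] at h2
      obtain ⟨s, hs, h3⟩ := h2
      exact ⟨s, hs, fun _ => h3⟩
    · exact ⟨1, (Ideal.ne_top_iff_one P).1 hP.ne_top, fun h => absurd h hw⟩
  choose s hs1 hs2 using h1
  refine ⟨∏ w ∈ G, s w, ?_, ?_⟩
  · intro h
    obtain ⟨w, _, hw⟩ := (hP.prod_mem_iff).1 h
    exact hs1 w hw
  · intro w hw
    rw [← hG] at hw
    induction hw using Submodule.span_induction with
    | mem w hw =>
      have hwP : w ∈ P := by
        rw [← hG]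
        exact Submodule.subset_span hw
      rw [← Finset.prod_erase_mul _ _ hw, mul_assoc]
      exact Ideal.mul_mem_left _ _ (hs2 w hwP)
    | zero => simp
    | add a b _ _ ha hb => rw [mul_add]; exact Ideal.add_mem _ ha hb
    | smul a b _ hb =>
      rw [smul_eq_mul, mul_left_comm]
      exact Ideal.mul_mem_left _ _ hb

end Param

section Leading

variable {A : Type u} [CommRing A] [IsLocalRing A] [IsNoetherianRing A] {ι : Type v} [Fintype ι]
  [DecidableEq ι]

/-- A multiple of a nonzero element is the socle monomial modulo a box ideal. -/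
theorem exists_leading (ξ : ι → A) (hξ : Ideal.span (Set.range ξ) = maximalIdeal A) (c : A)
    (hc : c ≠ 0) : ∃ (a : ℕ) (β : ι → ℕ) (u : A), IsUnit u ∧
      (∏ i, ξ i ^ β i) * c - u * ∏ i, ξ i ^ a ∈ box ξ Finset.univ (fun _ => a + 1) := by
  classical
  have hinf := Ideal.iInf_pow_eq_bot_of_isLocalRing (maximalIdeal A)
    (maximalIdeal.isMaximal A).ne_top
  have hex : ∃ n : ℕ, c ∉ maximalIdeal A ^ n := by
    by_contra hcon
    push Not at hcon
    apply hc
    rw [← Ideal.mem_bot, ← hinf, Submodule.mem_iInf]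
    exact hcon
  set n := Nat.find hex with hn
  have hn1 : c ∉ maximalIdeal A ^ n := Nat.find_spec hex
  have hn0 : n ≠ 0 := by
    intro h0
    rw [h0, pow_zero, Ideal.one_eq_top] at hn1
    exact hn1 trivial
  obtain ⟨a, ha⟩ : ∃ a, n = a + 1 := ⟨n - 1, by omega⟩
  have hca : c ∈ maximalIdeal A ^ a := by
    by_contra h
    exact Nat.find_min hex (m := a) (by omega) h
  rw [ha] at hn1
  rw [← hξ, Ideal.mem_span_pow_iff_exists_isHomogeneous] at hca
  obtain ⟨F, hF, hFc⟩ := hca
  -- a coefficient is a unit
  obtain ⟨α, hα, hαu⟩ : ∃ α ∈ F.support, IsUnit (F.coeff α) := by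
    by_contra hcon
    push Not at hcon
    apply hn1
    rw [← hFc, MvPolynomial.eval_eq']
    refine Ideal.sum_mem _ fun α hα => ?_
    rw [pow_succ']
    apply Ideal.mul_mem_mul ((IsLocalRing.mem_maximalIdeal _).2 (hcon α hα))
    have hdeg : ∑ i, α i = a := by
      have := hF (MvPolynomial.mem_support_iff.1 hα)
      rw [← this, Finsupp.weight_apply, Finsupp.sum_fintype _ _ (by simp)]
      simp
    rw [← hdeg, ← Finset.prod_pow_eq_pow_sum]
    apply Ideal.prod_mem_prod
    intro i _
    apply Ideal.pow_mem_pow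
    rw [← hξ]
    exact Ideal.subset_span ⟨i, rfl⟩
  have hdeg : ∀ α ∈ F.support, ∑ i, α i = a := by
    intro α hα
    have := hF (MvPolynomial.mem_support_iff.1 hα)
    rw [← this, Finsupp.weight_apply, Finsupp.sum_fintype _ _ (by simp)]
    simp
  have hαa : ∀ i, α i ≤ a := by
    intro i
    rw [← hdeg α hα]
    exact Finset.single_le_sum (f := α) (fun _ _ => Nat.zero_le _) (Finset.mem_univ i)
  refine ⟨a, fun i => a - α i, F.coeff α, hαu, ?_⟩
  rw [← hFc, MvPolynomial.eval_eq', Finset.mul_sum, ← Finset.add_sum_erase _ _ hα]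
  have h1 : (∏ i, ξ i ^ (a - α i)) * (F.coeff α * ∏ i, ξ i ^ α i) =
      F.coeff α * ∏ i, ξ i ^ a := by
    rw [mul_left_comm, ← Finset.prod_mul_distrib]
    congr 1
    apply Finset.prod_congr rfl
    intro i _
    rw [← pow_add, Nat.sub_add_cancel (hαa i)]
  rw [h1, add_sub_cancel_left]
  refine Ideal.sum_mem _ fun γ hγ => ?_
  obtain ⟨hγ1, hγ2⟩ := Finset.mem_erase.1 hγ
  have h2 : ∃ i, α i < γ i := by
    by_contra hcon
    push Not at hcon
    apply hγ1
    have h3 := hdeg γ hγ2
    have h4 := hdeg α hα
    ext i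
    by_contra hne
    have h5 : ∑ i, γ i < ∑ i, α i := by
      apply Finset.sum_lt_sum (fun i _ => hcon i)
      exact ⟨i, Finset.mem_univ i, lt_of_le_of_ne (hcon i) hne⟩
    omega
  obtain ⟨i, hi⟩ := h2
  rw [mul_left_comm]
  apply Ideal.mul_mem_left
  rw [← Finset.prod_mul_distrib, ← Finset.mul_prod_erase _ _ (Finset.mem_univ i), ← pow_add]
  apply Ideal.mul_mem_right
  apply pow_mem_box' ξ _ (Finset.mem_univ i)
  have := hαa i
  show a + 1 ≤ a - α i + γ i
  omega

end Leading

section Down

variable {R : Type u} [CommRing R] [IsNoetherianRing R]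

/-- The leading form statement in `R` near a prime. -/
theorem exists_leading_down (P : Ideal R) [hP : P.IsPrime] {ι : Type v} [Fintype ι] [DecidableEq ι]
    (x : ι → R)
    (hx : Ideal.span (Set.range fun i => algebraMap R (Localization.AtPrime P) (x i)) =
        maximalIdeal (Localization.AtPrime P)) (c : R)
    (hc : algebraMap R (Localization.AtPrime P) c ≠ 0) :
    ∃ (a : ℕ) (r v : R), v ∉ P ∧
      r * c - v * ∏ i, x i ^ a ∈ box x Finset.univ (fun _ => a + 1) := by
  obtain ⟨a, β, u, hu, h⟩ := exists_leading _ hx _ hc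
  obtain ⟨v, s, hvs⟩ := IsLocalization.exists_mk'_eq P.primeCompl u
  have hv : v ∉ P := by
    intro hv
    have h1 : u ∈ maximalIdeal (Localization.AtPrime P) := by
      rw [← hvs, IsLocalization.AtPrime.mk'_mem_maximal_iff (Localization.AtPrime P) P]
      exact hv
    exact (IsLocalRing.mem_maximalIdeal _).1 h1 hu
  have hus : u * algebraMap R (Localization.AtPrime P) s =
      algebraMap R (Localization.AtPrime P) v := by
    rw [← hvs, IsLocalization.mk'_spec]
  have h2 : algebraMap R (Localization.AtPrime P)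
      (s * (∏ i, x i ^ β i) * c - v * ∏ i, x i ^ a) ∈
      (box x Finset.univ (fun _ => a + 1)).map (algebraMap R (Localization.AtPrime P)) := by
    have h3 : (box x Finset.univ (fun _ => a + 1)).map (algebraMap R (Localization.AtPrime P)) =
        box (fun i => algebraMap R (Localization.AtPrime P) (x i)) Finset.univ
          (fun _ => a + 1) := by
      unfold box
      rw [Ideal.map_span, ← Set.image_comp]
      congr 1
      apply Set.image_congr
      intro i _
      simp
    rw [h3]
    have h4 := Ideal.mul_mem_left _ (algebraMap R (Localization.AtPrime P) s) h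
    convert h4 using 1
    simp only [map_sub, map_mul, map_prod, map_pow, ← hus]
    ring
  rw [IsLocalization.algebraMap_mem_map_algebraMap_iff P.primeCompl] at h2
  obtain ⟨s', hs', h3⟩ := h2
  refine ⟨a, s' * (s * ∏ i, x i ^ β i), s' * v, ?_, ?_⟩
  · intro h4
    rcases hP.mem_or_mem h4 with h5 | h5
    · exact hs' h5
    · exact hv h5
  · convert h3 using 1
    ring

end Down

section Quot

variable {R : Type u} [CommRing R]

theorem isLocalization_quot (P Q : Ideal R) [P.IsPrime] [hQ : Q.IsPrime] (h : P ≤ Q) :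
    ∃ _ : (Q.map (Ideal.Quotient.mk P)).IsPrime,
      IsLocalization.AtPrime (Localization.AtPrime Q ⧸ P.map (algebraMap R (Localization.AtPrime Q)))
        (Q.map (Ideal.Quotient.mk P)) := by
  have h1 : (Q.map (Ideal.Quotient.mk P)).IsPrime :=
    Ideal.isPrime_map_quotientMk_of_isPrime h
  refine ⟨h1, ?_⟩
  have h2 : Algebra.algebraMapSubmonoid (R ⧸ P) Q.primeCompl =
      (Q.map (Ideal.Quotient.mk P)).primeCompl := by
    ext y
    constructor
    · rintro ⟨z, hz, rfl⟩ hmem
      apply hz
      have h3 : Ideal.Quotient.mk P z ∈ Q.map (Ideal.Quotient.mk P) := hmem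
      rw [Ideal.mem_map_iff_of_surjective _ Ideal.Quotient.mk_surjective] at h3
      obtain ⟨w, hw, hwz⟩ := h3
      have h4 := h (Ideal.Quotient.eq.1 hwz)
      have h5 : z = w - (w - z) := by ring
      rw [h5]
      exact Ideal.sub_mem _ hw h4
    · intro hy
      obtain ⟨z, rfl⟩ := Ideal.Quotient.mk_surjective y
      refine ⟨z, ?_, rfl⟩
      intro hz
      exact hy (Ideal.mem_map_of_mem _ hz)
  unfold IsLocalization.AtPrime
  rw [← h2]
  infer_instance

theorem height_add_dim_le (B : Type u) [CommRing B] (P : Ideal B) [hP : P.IsPrime] :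
    (P.height : WithBot ℕ∞) + ringKrullDim (B ⧸ P) ≤ ringKrullDim B := by
  have hne : Nonempty (PrimeSpectrum B) := ⟨⟨P, hP⟩⟩
  have h1 : ringKrullDim (B ⧸ P) = ((Order.coheight (⟨P, hP⟩ : PrimeSpectrum B) : ℕ∞) :
      WithBot ℕ∞) := by
    rw [ringKrullDim_quotient, Order.coheight_eq_krullDim_Ici]
    rfl
  have h2 : P.height = Order.height (⟨P, hP⟩ : PrimeSpectrum B) :=
    PrimeSpectrum.height_eq_orderHeight ⟨P, hP⟩
  rw [h1, h2, ringKrullDim, Order.krullDim_eq_iSup_height_add_coheight_of_nonempty]
  rw [← WithBot.coe_add, WithBot.coe_le_coe]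
  exact le_iSup (fun a : PrimeSpectrum B => Order.height a + Order.coheight a) ⟨P, hP⟩

end Quot

section Main

variable {R : Type u} [CommRing R] [IsRegularRing R]

theorem exists_extend (P Q : Ideal R) [hP : P.IsPrime] [hQ : Q.IsPrime] (h : P ≤ Q)
    {ι : Type u} [Fintype ι] (x : ι → R) (hxP : ∀ i, x i ∈ P)
    (hd : ringKrullDim (Localization.AtPrime P) = Fintype.card ι)
    (g : R) (hgQ : g ∉ Q) (hg : ∀ w ∈ P, g * w ∈ Ideal.span (Set.range x))
    (hreg : IsRegularLocalRing
      (Localization.AtPrime Q ⧸ P.map (algebraMap R (Localization.AtPrime Q)))) :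
    ∃ (κ : Type u) (_ : Fintype κ) (y : κ → Localization.AtPrime Q),
      Ideal.span (Set.range (Sum.elim (fun i => algebraMap R (Localization.AtPrime Q) (x i)) y)) =
        maximalIdeal (Localization.AtPrime Q) ∧
      ringKrullDim (Localization.AtPrime Q) = Fintype.card (ι ⊕ κ) := by
  classical
  set B := Localization.AtPrime Q with hB
  set PB := P.map (algebraMap R B) with hPB
  have hgu : IsUnit (algebraMap R B g) :=
    IsLocalization.map_units (M := Q.primeCompl) B ⟨g, hgQ⟩
  have hPBx : PB = Ideal.span (Set.range fun i => algebraMap R B (x i)) := by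
    apply le_antisymm
    · rw [hPB, Ideal.map_le_iff_le_comap]
      intro w hw
      rw [Ideal.mem_comap]
      have h1 := Ideal.mem_map_of_mem (algebraMap R B) (hg w hw)
      rw [Ideal.map_span, ← Set.range_comp, map_mul] at h1
      exact (Ideal.unit_mul_mem_iff_mem _ hgu).1 h1
    · rw [Ideal.span_le]
      rintro _ ⟨i, rfl⟩
      exact Ideal.mem_map_of_mem _ (hxP i)
  obtain ⟨κ, hκ, y', hy', hd'⟩ := exists_params (B ⧸ PB)
  choose y hy using fun j => Ideal.Quotient.mk_surjective (y' j)
  have hne : PB ≠ ⊤ := Ideal.Quotient.nontrivial_iff.1 inferInstance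
  have hPBm : PB ≤ maximalIdeal B := IsLocalRing.le_maximalIdeal hne
  have hspan : Ideal.span (Set.range (Sum.elim (fun i => algebraMap R B (x i)) y)) =
      maximalIdeal B := by
    rw [Set.Sum.elim_range, Ideal.span_union, ← hPBx]
    have h1 : (Ideal.span (Set.range y)).map (Ideal.Quotient.mk PB) =
        (maximalIdeal B).map (Ideal.Quotient.mk PB) := by
      rw [Pool.Agent.H379R3.map_mk_maximalIdeal, ← hy', Ideal.map_span, ← Set.range_comp]
      congr 2
      funext j
      exact hy j
    have h2 := congrArg (Ideal.comap (Ideal.Quotient.mk PB)) h1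
    rw [Ideal.comap_map_of_surjective _ Ideal.Quotient.mk_surjective,
      Ideal.comap_map_of_surjective _ Ideal.Quotient.mk_surjective, ← RingHom.ker_eq_comap_bot,
      Ideal.mk_ker, sup_comm, sup_eq_left.2 hPBm] at h2
    exact h2
  refine ⟨κ, hκ, y, hspan, ?_⟩
  have hdisj : Disjoint (Q.primeCompl : Set R) (P : Set R) := by
    rw [Set.disjoint_left]
    intro z hz hzP
    exact hz (h hzP)
  have hPBp : PB.IsPrime := IsLocalization.isPrime_of_isPrime_disjoint Q.primeCompl B P hP hdisj
  apply le_antisymm
  · rw [← (isRegularLocalRing_iff B).1 inferInstance, ← hspan]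
    have h1 : (Ideal.span (Set.range (Sum.elim (fun i => algebraMap R B (x i)) y))).spanFinrank ≤
        Fintype.card (ι ⊕ κ) := by
      refine (Submodule.spanFinrank_span_le_ncard_of_finite (Set.finite_range _)).trans ?_
      rw [← Set.image_univ]
      refine (Set.ncard_image_le (Set.finite_univ)).trans ?_
      rw [Set.ncard_univ, Nat.card_eq_fintype_card]
    exact_mod_cast h1
  · have h1 := height_add_dim_le B PB
    have h2 : PB.height = P.height :=
      IsLocalization.height_map_of_disjoint Q.primeCompl P hdisj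
    rw [h2, hd'] at h1
    have h3 : (P.height : WithBot ℕ∞) = Fintype.card ι := by
      rw [← hd]
      exact (IsLocalization.AtPrime.ringKrullDim_eq_height P _).symm
    rw [h3] at h1
    rw [Fintype.card_sum]
    exact_mod_cast h1

end Main

end Pool.Agent.TH45.FPR
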